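import Pool.Agent.Lib.MP_0da313_nt.MT.Defs
import Pool.Agent.Lib.MP_0da313_nt.Poly

set_option autoImplicit false

/-!
The four linear forms `6x-1, 12x-1, 6y-1, 6y+1` on the line `x + y = n`: the deduction of the results on
them from the general theorems of `Lib/MP_0da313_nt` (which are hypotheses here).
-/

namespace Pool.Agent.Lib.MP_cc3cca_nt

open Finset Filter Polynomial
open ArithmeticFunction (cardFactors)
open Pool.Agent.Lib.MP_0da313_nt (Admissible lineRestrict val singV nroots eval_lineRestrict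
  natDegree_lineRestrict_le card_roots_mod_le card_roots_mod_lt)

/-- The numbers `6x - 1`, `12x - 1`, `6y - 1`, `6y + 1`. -/
def form (x y : ℕ) : Fin 4 → ℕ := ![6 * x - 1, 12 * x - 1, 6 * y - 1, 6 * y + 1]

/-- All four numbers have at most `B` prime factors, all larger than `(x + y)^(1/B)`. -/
def Rough (B x y : ℕ) : Prop := ∀ k : Fin 4, cardFactors (form x y k) ≤ B ∧
  ∀ p : ℕ, p.Prime → p ∣ form x y k → x + y < p ^ B

/-- the coefficients -/
def al : Fin 4 → ℤ := ![6, 12, 0, 0]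
def be : Fin 4 → ℤ := ![0, 0, 6, 6]
def ga : Fin 4 → ℤ := ![-1, -1, -1, 1]

/-- the family -/
noncomputable def Fm (k : Fin 4) : MvPolynomial (Fin 2) ℤ :=
  MvPolynomial.C (al k) * MvPolynomial.X 0 + MvPolynomial.C (be k) * MvPolynomial.X 1 +
    MvPolynomial.C (ga k)

lemma val_Fm (k : Fin 4) (x y : ℤ) : val (Fm k) x y = al k * x + be k * y + ga k := by
  unfold Pool.Agent.Lib.MP_0da313_nt.val Fm
  simp

lemma natAbs_val (k : Fin 4) (n x : ℕ) (hx : 0 < x) (hxn : x < n) :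
    (val (Fm k) x ((n : ℤ) - x)).natAbs = form x (n - x) k := by
  rw [val_Fm]
  fin_cases k <;> simp [al, be, ga, form] <;> omega

lemma lr_Fm (k : Fin 4) (n : ℕ) :
    lineRestrict (Fm k) n = C (al k - be k) * X + C (be k * n + ga k) := by
  unfold Pool.Agent.Lib.MP_0da313_nt.lineRestrict Fm
  simp only [map_add, map_mul, MvPolynomial.aeval_X, Matrix.cons_val_zero, Matrix.cons_val_one,
    MvPolynomial.algHom_C, algebraMap_eq, map_sub, map_natCast]
  ring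

lemma deg_Fm (k : Fin 4) : (Fm k).totalDegree ≤ 1 := by
  have h : ∀ (a : ℤ) (i : Fin 2), (MvPolynomial.C a * MvPolynomial.X i :
      MvPolynomial (Fin 2) ℤ).totalDegree ≤ 1 := fun a i => by
    refine (MvPolynomial.totalDegree_mul _ _).trans ?_
    rw [MvPolynomial.totalDegree_C, MvPolynomial.totalDegree_X]
  unfold Fm
  refine (MvPolynomial.totalDegree_add _ _).trans (max_le ?_ ?_)
  · exact (MvPolynomial.totalDegree_add _ _).trans (max_le (h _ _) (h _ _))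
  · rw [MvPolynomial.totalDegree_C]
    exact Nat.zero_le _

lemma irr_lin (a b : ℤ) (ha : a ≠ 0) (hab : IsCoprime a b) : Irreducible (C a * X + C b : ℤ[X]) := by
  have hdeg : (C a * X + C b : ℤ[X]).natDegree = 1 := natDegree_linear ha
  have key : ∀ f g : ℤ[X], (C a * X + C b : ℤ[X]) = f * g → f.natDegree = 0 → IsUnit f := by
    intro f g hfg hf
    rw [eq_C_of_natDegree_eq_zero hf] at hfg ⊢
    have h0 : f.coeff 0 ∣ b := by
      have h1 := congrArg (fun q : ℤ[X] => q.coeff 0) hfg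
      simp only [coeff_add, coeff_C_mul, coeff_X_zero, mul_zero, coeff_C_zero, zero_add] at h1
      exact ⟨_, h1⟩
    have h1 : f.coeff 0 ∣ a := by
      have h1 := congrArg (fun q : ℤ[X] => q.coeff 1) hfg
      simp only [coeff_add, coeff_C_mul, coeff_X_one, mul_one, coeff_C_succ, add_zero] at h1
      exact ⟨_, h1⟩
    exact (hab.isUnit_of_dvd' h1 h0).map C
  refine ⟨fun hu => ?_, fun f g hfg => ?_⟩
  · have := natDegree_eq_zero_of_isUnit hu
    omega
  · have hne : (C a * X + C b : ℤ[X]) ≠ 0 := fun h0 => by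
      rw [h0, natDegree_zero] at hdeg
      omega
    have hf0 : f ≠ 0 := fun h0 => hne (by rw [hfg, h0, zero_mul])
    have hg0 : g ≠ 0 := fun h0 => hne (by rw [hfg, h0, mul_zero])
    have h1 := hdeg
    rw [hfg, natDegree_mul hf0 hg0] at h1
    rcases Nat.eq_zero_or_pos f.natDegree with h2 | h2
    · exact Or.inl (key f g hfg h2)
    · exact Or.inr (key g f (by rw [hfg, mul_comm]) (by omega))

lemma nofix (n p : ℕ) (hp : p.Prime) :
    ¬ ∀ x : ℤ, (p : ℤ) ∣ ∏ k, (lineRestrict (Fm k) n).eval x := by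
  intro hall
  have hpi : Prime (p : ℤ) := Nat.prime_iff_prime_int.1 hp
  have hev : ∀ (k : Fin 4) (x : ℤ), (lineRestrict (Fm k) n).eval x =
      (al k - be k) * x + (be k * n + ga k) := by
    intro k x
    rw [lr_Fm]
    simp
  have h1 : ∀ x : ℤ, ∃ k : Fin 4, (p : ℤ) ∣ (al k - be k) * x + (be k * n + ga k) := by
    intro x
    obtain ⟨k, -, hk⟩ := (Prime.dvd_finsetProd_iff hpi _).1 (hall x)
    exact ⟨k, by rw [← hev]; exact hk⟩
  -- `p` does not divide `6`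
  have h6 : ¬ (p : ℤ) ∣ 6 := by
    intro h6
    obtain ⟨k, hk⟩ := h1 0
    have h2 : (p : ℤ) ∣ 1 := by
      fin_cases k <;> simp [al, be, ga] at hk
      · exact hk
      · exact hk
      · have := dvd_sub (h6.mul_right (n : ℤ)) hk
        simpa using this
      · have := dvd_sub hk (h6.mul_right (n : ℤ))
        simpa using this
    exact hpi.not_isUnit (isUnit_of_dvd_one h2)
  have h2 : ¬ (p : ℤ) ∣ 2 := fun h => h6 (h.trans ⟨3, by norm_num⟩)
  have h3 : ¬ (p : ℤ) ∣ 3 := fun h => h6 (h.trans ⟨2, by norm_num⟩)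
  have h5 : 5 ≤ p := by
    have ha := hp.two_le
    have hb : p ≠ 2 := by rintro rfl; exact h2 (by norm_num)
    have hc : p ≠ 3 := by rintro rfl; exact h3 (by norm_num)
    have hd : p ≠ 4 := by rintro rfl; exact absurd hp (by norm_num)
    omega
  have hnd : ∀ k : Fin 4, ¬ (p : ℤ) ∣ al k - be k := by
    intro k hk
    have h12 : ¬ (p : ℤ) ∣ 12 := by
      intro h
      have : (12 : ℤ) = 2 * 6 := by norm_num
      rw [this] at h
      rcases hpi.dvd_or_dvd h with h | h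
      · exact h2 h
      · exact h6 h
    fin_cases k <;> simp [al, be] at hk
    · exact h6 hk
    · exact h12 hk
    · exact h6 hk
    · exact h6 hk
  choose h hh using fun x : Fin 5 => h1 ((x : ℕ) : ℤ)
  obtain ⟨x, x', hne, heq⟩ := Fintype.exists_ne_map_eq_of_card_lt h (by simp)
  have h7 := dvd_sub (hh x) (hh x')
  rw [← heq] at h7
  have h8 : (al (h x) - be (h x)) * (((x : ℕ) : ℤ)) + (be (h x) * n + ga (h x)) -
      ((al (h x) - be (h x)) * (((x' : ℕ) : ℤ)) + (be (h x) * n + ga (h x))) =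
      (al (h x) - be (h x)) * ((((x : ℕ) : ℤ)) - (((x' : ℕ) : ℤ))) := by ring
  rw [h8] at h7
  rcases hpi.dvd_or_dvd h7 with h9 | h9
  · exact hnd _ h9
  · have hx := x.2
    have hx' := x'.2
    have h10 : ((x : ℕ) : ℤ) - ((x' : ℕ) : ℤ) = 0 := by
      apply Int.eq_zero_of_abs_lt_dvd h9
      rw [abs_lt]
      constructor <;> omega
    apply hne
    ext
    omega

lemma adm : Admissible Fm := by
  refine ⟨0, fun n _ => ⟨fun k => ?_, fun p hp => nofix n p hp⟩⟩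
  rw [lr_Fm]
  apply irr_lin
  · fin_cases k <;> simp [al, be]
  · fin_cases k
    · exact ⟨0, -1, by simp [al, be, ga]⟩
    · exact ⟨0, -1, by simp [al, be, ga]⟩
    · exact ⟨-n, -1, by simp [al, be, ga]; ring⟩
    · exact ⟨n, 1, by simp [al, be, ga]; ring⟩

lemma dist (k l : Fin 4) (hkl : k ≠ l) : Fm k ≠ Fm l ∧ Fm k ≠ - Fm l := by
  have h1 : val (Fm k) 2 1 ≠ val (Fm l) 2 1 ∧ 0 < val (Fm k) 2 1 ∧ 0 < val (Fm l) 2 1 := by
    rw [val_Fm, val_Fm]
    revert hkl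
    fin_cases k <;> fin_cases l <;> simp [al, be, ga]
  refine ⟨fun h => h1.1 (by rw [h]), fun h => ?_⟩
  have h2 := h1.2.1
  have h3 := h1.2.2
  rw [h] at h2
  have h4 : val (- Fm l) 2 1 = - val (Fm l) 2 1 := by
    unfold Pool.Agent.Lib.MP_0da313_nt.val
    rw [map_neg]
  rw [h4] at h2
  linarith

lemma coeff0 (k : Fin 4) : (Fm k).coeff (Finsupp.single 0 1) = al k := by
  classical
  rw [Fm, MvPolynomial.coeff_add, MvPolynomial.coeff_add, MvPolynomial.coeff_C_mul,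
    MvPolynomial.coeff_C_mul, MvPolynomial.coeff_X, MvPolynomial.coeff_X, MvPolynomial.coeff_C]
  have h : (0 : Fin 2 →₀ ℕ) ≠ Finsupp.single 0 1 := (Finsupp.single_ne_zero.2 one_ne_zero).symm
  simp [Finsupp.single_left_inj, h]

lemma coeff1 (k : Fin 4) : (Fm k).coeff (Finsupp.single 1 1) = be k := by
  classical
  rw [Fm, MvPolynomial.coeff_add, MvPolynomial.coeff_add, MvPolynomial.coeff_C_mul,
    MvPolynomial.coeff_C_mul, MvPolynomial.coeff_X, MvPolynomial.coeff_X, MvPolynomial.coeff_C]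
  have h : (0 : Fin 2 →₀ ℕ) ≠ Finsupp.single 1 1 := (Finsupp.single_ne_zero.2 one_ne_zero).symm
  simp [Finsupp.single_left_inj, h]

lemma sv_lb (hsv : ∀ k : ℕ, ∃ c : ℝ, 0 < c ∧ ∀ n : ℕ, 2 ≤ n → ∀ w : ℕ → ℕ,
    (∀ p : ℕ, p.Prime → w p ≤ k ∧ w p < p) →
    c / (Real.log n) ^ k ≤ ∏ p ∈ (Icc 1 n).filter Nat.Prime, (1 - (w p : ℝ) / p)) :
    ∃ c : ℝ, 0 < c ∧ ∀ n : ℕ, 2 ≤ n → c / (Real.log n) ^ 4 ≤ singV Fm n := by
  obtain ⟨c, hc, h⟩ := hsv 4
  refine ⟨c, hc, fun n hn => h n hn (fun p => nroots Fm n p) (fun p hp => ?_)⟩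
  have h3 : nroots Fm n p = ((range p).filter (fun r : ℕ =>
      (p : ℤ) ∣ (∏ k, lineRestrict (Fm k) n).eval (r : ℤ))).card := by
    unfold nroots
    congr 1
    refine Finset.filter_congr fun r _ => ?_
    rw [eval_prod]
    simp only [eval_lineRestrict]
  have h4 : ¬ ∀ x : ℤ, (p : ℤ) ∣ (∏ k, lineRestrict (Fm k) n).eval x := by
    intro h
    apply nofix n p hp
    intro x
    have := h x
    rwa [eval_prod] at this
  have h5 : (∏ k, lineRestrict (Fm k) n).natDegree ≤ 4 := by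
    refine (natDegree_prod_le _ _).trans ?_
    calc ∑ k : Fin 4, (lineRestrict (Fm k) n).natDegree ≤ ∑ _k : Fin 4, 1 :=
          Finset.sum_le_sum fun k _ => natDegree_lineRestrict_le _ _ _ (deg_Fm k)
      _ = 4 := by simp
  rw [h3]
  exact ⟨card_roots_mod_le _ p 4 hp h5 h4, card_roots_mod_lt _ p hp h4⟩

/-- Translation of the property of all members. -/
lemma rough_of (B n x : ℕ) (hx : 0 < x) (hxn : x < n)
    (h : ∀ k, 1 < |val (Fm k) x ((n : ℤ) - x)| ∧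
      (∀ p : ℕ, p.Prime → (p : ℤ) ∣ val (Fm k) x ((n : ℤ) - x) → n < p ^ B) ∧
      cardFactors (val (Fm k) x ((n : ℤ) - x)).natAbs ≤ B * 1) : Rough B x (n - x) := by
  intro k
  obtain ⟨-, h2, h3⟩ := h k
  rw [natAbs_val k n x hx hxn, mul_one] at h3
  refine ⟨h3, fun p hp hd => ?_⟩
  have h4 : x + (n - x) = n := by omega
  rw [h4]
  apply h2 p hp
  rw [← Int.dvd_natAbs, natAbs_val k n x hx hxn]
  exact_mod_cast hd

lemma low (a c' : ℝ) (ha : 0 < a)
    (hs : ∀ n : ℕ, 2 ≤ n → c' / (Real.log n) ^ 4 ≤ singV Fm n) (n : ℕ) (hn : 2 ≤ n) :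
    a * c' * (n / (Real.log n) ^ 4) ≤ a * (n * singV Fm n) := by
  have hn2 : (2 : ℝ) ≤ n := by exact_mod_cast hn
  have hlogn : 0 < Real.log n := Real.log_pos (by linarith)
  have h1 := hs n hn
  calc a * c' * (n / (Real.log n) ^ 4)
      = a * (n * (c' / (Real.log n) ^ 4)) := by ring
    _ ≤ a * (n * singV Fm n) := by
        refine mul_le_mul_of_nonneg_left (mul_le_mul_of_nonneg_left h1 ?_) ha.le
        positivity

lemma fin_of (n : ℕ) (S : Set ℕ) (hS : S ⊆ {x : ℕ | x < n}) : S.Finite :=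
  (Set.finite_lt_nat n).subset hS

open Classical in
/-- One of the four numbers prime, another one a `P_2`. -/
theorem main1
    (hsv : ∀ k : ℕ, ∃ c : ℝ, 0 < c ∧ ∀ n : ℕ, 2 ≤ n → ∀ w : ℕ → ℕ,
      (∀ p : ℕ, p.Prime → w p ≤ k ∧ w p < p) →
      c / (Real.log n) ^ k ≤ ∏ p ∈ (Icc 1 n).filter Nat.Prime, (1 - (w p : ℝ) / p))
    (hCM : ∃ c₀ : ℝ, 0 < c₀ ∧ ∀ m d : ℕ, 1 ≤ m → 1 ≤ d →
      ∃ (B : ℕ) (c : ℝ), 0 < c ∧ ∀ f : Fin m → MvPolynomial (Fin 2) ℤ,
        (∀ k, (f k).totalDegree ≤ d) → Admissible f →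
        ∀ (k₀ : Fin m) (I : Finset (Fin m)), k₀ ∉ I →
        (∀ k ∈ insert k₀ I, (f k).totalDegree ≤ 1) →
        (∀ k ∈ insert k₀ I, ∀ l ∈ insert k₀ I, k ≠ l → f k ≠ f l ∧ f k ≠ - f l) →
        ∃ N : ℕ, ∀ n : ℕ, N ≤ n → c * (n * singV f n) ≤
          (Set.ncard {x : ℕ | 0 < x ∧ x < n ∧ (val (f k₀) x ((n : ℤ) - x)).natAbs.Prime ∧
            c₀ * Real.log I.card ≤
              ((I.filter (fun k => cardFactors (val (f k) x ((n : ℤ) - x)).natAbs ≤ 2)).card : ℝ) ∧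
            (I.Nonempty →
              1 ≤ (I.filter (fun k => cardFactors (val (f k) x ((n : ℤ) - x)).natAbs ≤ 2)).card) ∧
            ∀ k, 1 < |val (f k) x ((n : ℤ) - x)| ∧
            (∀ p : ℕ, p.Prime → (p : ℤ) ∣ val (f k) x ((n : ℤ) - x) → n < p ^ B) ∧
            cardFactors (val (f k) x ((n : ℤ) - x)).natAbs ≤ B * d} : ℝ)) :
    ∃ (B : ℕ) (c : ℝ), 0 < c ∧ ∀ i j : Fin 4, i ≠ j → ∃ N : ℕ, ∀ n : ℕ, N ≤ n →
      c * (n / (Real.log n) ^ 4) ≤
        (Set.ncard {x : ℕ | 0 < x ∧ x < n ∧ (form x (n - x) i).Prime ∧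
          cardFactors (form x (n - x) j) ≤ 2 ∧ Rough B x (n - x)} : ℝ) := by
  obtain ⟨c', hc', hs⟩ := sv_lb hsv
  obtain ⟨c₁, -, hCM⟩ := hCM
  obtain ⟨B, c, hc, hCM⟩ := hCM 4 1 (by norm_num) le_rfl
  refine ⟨B, c * c', mul_pos hc hc', fun i j hij => ?_⟩
  obtain ⟨N, hN⟩ := hCM Fm deg_Fm adm i {j} (by simpa using hij) (fun k _ => deg_Fm k)
    (fun k _ l _ hkl => dist k l hkl)
  refine ⟨max N 2, fun n hn => ?_⟩
  have hn1 : N ≤ n := (le_max_left _ _).trans hn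
  have hn2 : 2 ≤ n := (le_max_right _ _).trans hn
  refine (low c c' hc hs n hn2).trans ((hN n hn1).trans ?_)
  refine Nat.cast_le.2 (Set.ncard_le_ncard ?_ (fin_of n _ (fun x hx => hx.2.1)))
  rintro x ⟨hx0, hxn, hx1, -, hx2, hx3⟩
  refine ⟨hx0, hxn, ?_, ?_, rough_of B n x hx0 hxn hx3⟩
  · rw [← natAbs_val i n x hx0 hxn]
    exact hx1
  · have h1 := hx2 (Finset.singleton_nonempty j)
    rw [Nat.succ_le_iff, Finset.card_pos] at h1
    obtain ⟨k, hk⟩ := h1
    rw [Finset.mem_filter, Finset.mem_singleton] at hk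
    obtain ⟨rfl, hk⟩ := hk
    rw [← natAbs_val k n x hx0 hxn]
    exact hk

open Classical in
/-- Two of the four numbers prime, for almost all `n`. -/
theorem main2
    (hsv : ∀ k : ℕ, ∃ c : ℝ, 0 < c ∧ ∀ n : ℕ, 2 ≤ n → ∀ w : ℕ → ℕ,
      (∀ p : ℕ, p.Prime → w p ≤ k ∧ w p < p) →
      c / (Real.log n) ^ k ≤ ∏ p ∈ (Icc 1 n).filter Nat.Prime, (1 - (w p : ℝ) / p))
    (hTC : ∃ c₀ : ℝ, 0 < c₀ ∧ ∀ m d : ℕ, 1 ≤ m → 1 ≤ d →
      ∃ (B : ℕ) (c : ℝ), 0 < c ∧ ∀ f : Fin m → MvPolynomial (Fin 2) ℤ,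
        Admissible f → (∀ k, (f k).totalDegree ≤ d) →
        ∀ I J : Finset (Fin m), I.Nonempty → J.Nonempty →
        (∀ k ∈ I, (f k).totalDegree ≤ 1) → (∀ k ∈ J, (f k).totalDegree ≤ 1) →
        (∀ k ∈ I, ∀ l ∈ I, k ≠ l → f k ≠ f l ∧ f k ≠ - f l) →
        (∀ k ∈ J, ∀ l ∈ J, k ≠ l → f k ≠ f l ∧ f k ≠ - f l) →
        (∀ i ∈ I, ∀ j ∈ J,
          (f i).coeff (Finsupp.single 0 1) * (f j).coeff (Finsupp.single 1 1) ≠
          (f j).coeff (Finsupp.single 0 1) * (f i).coeff (Finsupp.single 1 1)) →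
        ∀ A : ℕ, ∀ᶠ N : ℕ in Filter.atTop,
          (((Finset.Icc 1 N).filter (fun n : ℕ => ¬ (c * (n * singV f n) ≤
            (Set.ncard {x : ℕ | 0 < x ∧ x < n ∧
              (c₀ * Real.log I.card ≤
                ((I.filter (fun k => (val (f k) x ((n : ℤ) - x)).natAbs.Prime)).card : ℝ) ∧
                1 ≤ (I.filter (fun k => (val (f k) x ((n : ℤ) - x)).natAbs.Prime)).card) ∧
              (c₀ * Real.log J.card ≤
                ((J.filter (fun k => (val (f k) x ((n : ℤ) - x)).natAbs.Prime)).card : ℝ) ∧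
                1 ≤ (J.filter (fun k => (val (f k) x ((n : ℤ) - x)).natAbs.Prime)).card) ∧
              ∀ k, 1 < |val (f k) x ((n : ℤ) - x)| ∧
              (∀ p : ℕ, p.Prime → (p : ℤ) ∣ val (f k) x ((n : ℤ) - x) → n < p ^ B) ∧
              cardFactors (val (f k) x ((n : ℤ) - x)).natAbs ≤ B * d} : ℝ)))).card : ℝ)
          ≤ N / (Real.log N) ^ A) :
    ∃ (B : ℕ) (c : ℝ), 0 < c ∧ ∀ i j : Fin 4, i < 2 → 2 ≤ j → ∀ A : ℕ, ∀ᶠ N : ℕ in Filter.atTop,
      (((Finset.Icc 1 N).filter (fun n : ℕ => ¬ (c * (n / (Real.log n) ^ 4) ≤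
        (Set.ncard {x : ℕ | 0 < x ∧ x < n ∧ (form x (n - x) i).Prime ∧
          (form x (n - x) j).Prime ∧ Rough B x (n - x)} : ℝ)))).card : ℝ)
      ≤ N / (Real.log N) ^ A := by
  obtain ⟨c', hc', hs⟩ := sv_lb hsv
  obtain ⟨c₂, -, hTC⟩ := hTC
  obtain ⟨B, c, hc, hTC⟩ := hTC 4 1 (by norm_num) le_rfl
  refine ⟨B, c * c', mul_pos hc hc', fun i j hi hj A => ?_⟩
  have hpar : ∀ i' ∈ ({i} : Finset (Fin 4)), ∀ j' ∈ ({j} : Finset (Fin 4)),
      (Fm i').coeff (Finsupp.single 0 1) * (Fm j').coeff (Finsupp.single 1 1) ≠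
      (Fm j').coeff (Finsupp.single 0 1) * (Fm i').coeff (Finsupp.single 1 1) := by
    intro i' hi' j' hj'
    rw [Finset.mem_singleton] at hi' hj'
    subst hi' hj'
    rw [coeff0, coeff1, coeff0, coeff1]
    revert hi hj
    fin_cases i' <;> fin_cases j' <;> simp [al, be]
  filter_upwards [hTC Fm adm deg_Fm {i} {j} (Finset.singleton_nonempty i)
    (Finset.singleton_nonempty j) (fun k _ => deg_Fm k) (fun k _ => deg_Fm k)
    (fun k _ l _ hkl => dist k l hkl) (fun k _ l _ hkl => dist k l hkl) hpar A] with N hN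
  refine le_trans (Nat.cast_le.2 (Finset.card_le_card ?_)) hN
  intro n hn
  rw [Finset.mem_filter] at hn ⊢
  refine ⟨hn.1, fun hbad => hn.2 ?_⟩
  have hn1 := (Finset.mem_Icc.1 hn.1).1
  rcases Nat.lt_or_ge n 2 with h2 | h2
  · have : n = 1 := by omega
    subst this
    simp
  refine (low c c' hc hs n h2).trans (hbad.trans ?_)
  refine Nat.cast_le.2 (Set.ncard_le_ncard ?_ (fin_of n _ (fun x hx => hx.2.1)))
  rintro x ⟨hx0, hxn, ⟨-, hx1⟩, ⟨-, hx2⟩, hx3⟩
  have key : ∀ l : Fin 4, 1 ≤ ((({l} : Finset (Fin 4))).filter (fun k =>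
      (val (Fm k) x ((n : ℤ) - x)).natAbs.Prime)).card → (form x (n - x) l).Prime := by
    intro l h1
    rw [Nat.succ_le_iff, Finset.card_pos] at h1
    obtain ⟨k, hk⟩ := h1
    rw [Finset.mem_filter, Finset.mem_singleton] at hk
    obtain ⟨rfl, hk⟩ := hk
    rw [← natAbs_val k n x hx0 hxn]
    exact hk
  exact ⟨hx0, hxn, key i hx1, key j hx2, rough_of B n x hx0 hxn hx3⟩

end Pool.Agent.Lib.MP_cc3cca_nt
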